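import Mathlib

set_option autoImplicit false

/-!
# Convexity of the threshold exponent (MP_16faa7_an, Q1): yes

For each `γ > 1` the set of pairs `(α, β)` with `β ∈ S_α` is convex: for `z = w^(1/α)` use the
conditions at `z_i = w^(1/α_i)` and the inequality `(1-x)^λ (1-y)^(1-λ) + x^λ y^(1-λ) ≤ 1`.
-/

namespace Pool.Agent.Results.MP_16faa7_an.ThresholdConvex

open Real Set

/-- The set `S_α` of the exponents `β > 0` with `γ z^(β-α) (1 - z^α) ≤ 1 - z` for `z ∈ (0, 1)`. -/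
def S (γ α : ℝ) : Set ℝ :=
  {β | 0 < β ∧ ∀ z ∈ Ioo (0 : ℝ) 1, γ * z ^ (β - α) * (1 - z ^ α) ≤ 1 - z}

/-- The threshold exponent `β(α) = inf S_α`. -/
noncomputable def beta (γ α : ℝ) : ℝ := sInf (S γ α)

lemma key {x y l : ℝ} (hx : 0 < x) (hx1 : x < 1) (hy : 0 < y) (hy1 : y < 1) (hl : 0 ≤ l) (hl1 : l ≤ 1) :
    (1 - x) ^ l * (1 - y) ^ (1 - l) ≤ 1 - x ^ l * y ^ (1 - l) := by
  have h1 := Real.geom_mean_le_arith_mean2_weighted hl (sub_nonneg.2 hl1) (sub_pos.2 hx1).le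
    (sub_pos.2 hy1).le (by ring)
  have h2 := Real.geom_mean_le_arith_mean2_weighted hl (sub_nonneg.2 hl1) hx.le hy.le (by ring)
  nlinarith

/-- The condition at `z = w^(1/α)`. -/
lemma cond_iff {γ α β w : ℝ} (hγ : 0 < γ) (hα : 0 < α) (hw : 0 < w) (hw1 : w < 1) :
    γ * (w ^ (1 / α)) ^ (β - α) * (1 - (w ^ (1 / α)) ^ α) ≤ 1 - w ^ (1 / α) ↔
      w ^ (β / α) ≤ w / (γ * (1 - w)) * (1 - w ^ (1 / α)) := by
  have h1 : (w ^ (1 / α)) ^ α = w := by
    rw [← Real.rpow_mul hw.le, one_div_mul_cancel hα.ne', Real.rpow_one]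
  have h2 : (w ^ (1 / α)) ^ (β - α) = w ^ (β / α) / w := by
    rw [← Real.rpow_mul hw.le, show 1 / α * (β - α) = β / α - 1 by field_simp, Real.rpow_sub hw,
      Real.rpow_one]
  have hp : 0 < 1 - w := sub_pos.2 hw1
  rw [h1, h2, div_mul_eq_mul_div, le_div_iff₀ (by positivity)]
  constructor
  · intro h
    have := mul_le_mul_of_nonneg_left h hw.le
    calc w ^ (β / α) * (γ * (1 - w)) = w * (γ * (w ^ (β / α) / w) * (1 - w)) := by
          field_simp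
      _ ≤ w * (1 - w ^ (1 / α)) := this
  · intro h
    have h3 := div_le_div_of_nonneg_right h hw.le
    calc γ * (w ^ (β / α) / w) * (1 - w) = w ^ (β / α) * (γ * (1 - w)) / w := by ring
      _ ≤ w * (1 - w ^ (1 / α)) / w := h3
      _ = 1 - w ^ (1 / α) := by field_simp

lemma mem_iff {γ α β : ℝ} (hγ : 0 < γ) (hα : 0 < α) : β ∈ S γ α ↔ 0 < β ∧
    ∀ w, 0 < w → w < 1 → w ^ (β / α) ≤ w / (γ * (1 - w)) * (1 - w ^ (1 / α)) := by
  constructor
  · rintro ⟨h0, h⟩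
    refine ⟨h0, fun w hw hw1 => ?_⟩
    rw [← cond_iff hγ hα hw hw1]
    exact h _ ⟨Real.rpow_pos_of_pos hw _, Real.rpow_lt_one hw.le hw1 (by positivity)⟩
  · rintro ⟨h0, h⟩
    refine ⟨h0, fun z hz => ?_⟩
    have hw : 0 < z ^ α := Real.rpow_pos_of_pos hz.1 _
    have hw1 : z ^ α < 1 := Real.rpow_lt_one hz.1.le hz.2 hα
    have hzw : (z ^ α) ^ (1 / α) = z := by
      rw [← Real.rpow_mul hz.1.le, mul_one_div_cancel hα.ne', Real.rpow_one]
    have := (cond_iff hγ hα hw hw1 (β := β)).2 (h _ hw hw1)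
    rwa [hzw] at this

lemma convex_mem {γ α₁ α₂ β₁ β₂ a b : ℝ} (hγ : 0 < γ) (h1 : 0 < α₁) (h2 : 0 < α₂) (ha : 0 ≤ a)
    (hb : 0 ≤ b) (hab : a + b = 1) (hβ₁ : β₁ ∈ S γ α₁) (hβ₂ : β₂ ∈ S γ α₂) :
    a * β₁ + b * β₂ ∈ S γ (a * α₁ + b * α₂) := by
  set α := a * α₁ + b * α₂ with hα
  have hpos : ∀ {u v : ℝ}, 0 < u → 0 < v → 0 < a * u + b * v := by
    intro u v hu hv
    rcases ha.eq_or_lt with h | h
    · have hb1 : b = 1 := by linarith
      rw [← h, hb1]; linarith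
    · have h3 : 0 < a * u := mul_pos h hu
      have h4 : 0 ≤ b * v := mul_nonneg hb hv.le
      linarith
  have hαp : 0 < α := hpos h1 h2
  rw [mem_iff hγ h1] at hβ₁
  rw [mem_iff hγ h2] at hβ₂
  rw [mem_iff hγ hαp]
  refine ⟨hpos hβ₁.1 hβ₂.1, fun w hw hw1 => ?_⟩
  set l := a * α₁ / α with hl
  have hl0 : 0 ≤ l := by positivity
  have hl1' : 1 - l = b * α₂ / α := by rw [hl]; field_simp; rw [hα]; ring
  have hl1 : l ≤ 1 := by
    have : 0 ≤ 1 - l := by rw [hl1']; positivity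
    linarith
  have e1 : (a * β₁ + b * β₂) / α = (β₁ / α₁) * l + (β₂ / α₂) * (1 - l) := by
    rw [hl1', hl]; field_simp
  have e2 : 1 / α = (1 / α₁) * l + (1 / α₂) * (1 - l) := by
    rw [hl1', hl]; field_simp; rw [hab]
  have hc1 := hβ₁.2 w hw hw1
  have hc2 := hβ₂.2 w hw hw1
  set c := w / (γ * (1 - w)) with hc
  have hcp : 0 < c := by
    have : 0 < 1 - w := sub_pos.2 hw1
    positivity
  have hx0 : 0 < w ^ (1 / α₁) := Real.rpow_pos_of_pos hw _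
  have hx1 : w ^ (1 / α₁) < 1 := Real.rpow_lt_one hw.le hw1 (by positivity)
  have hy0 : 0 < w ^ (1 / α₂) := Real.rpow_pos_of_pos hw _
  have hy1 : w ^ (1 / α₂) < 1 := Real.rpow_lt_one hw.le hw1 (by positivity)
  have hk := key hx0 hx1 hy0 hy1 hl0 hl1
  have hcc : c ^ l * c ^ (1 - l) = c := by
    rw [← Real.rpow_add hcp]; simp
  rw [e1, e2, Real.rpow_add hw, Real.rpow_add hw, Real.rpow_mul hw.le, Real.rpow_mul hw.le,
    Real.rpow_mul hw.le, Real.rpow_mul hw.le]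
  calc (w ^ (β₁ / α₁)) ^ l * (w ^ (β₂ / α₂)) ^ (1 - l)
      ≤ (c * (1 - w ^ (1 / α₁))) ^ l * (c * (1 - w ^ (1 / α₂))) ^ (1 - l) := by
        gcongr
    _ = (c ^ l * c ^ (1 - l)) * ((1 - w ^ (1 / α₁)) ^ l * (1 - w ^ (1 / α₂)) ^ (1 - l)) := by
        rw [Real.mul_rpow hcp.le (by linarith), Real.mul_rpow hcp.le (by linarith)]; ring
    _ ≤ c * (1 - (w ^ (1 / α₁)) ^ l * (w ^ (1 / α₂)) ^ (1 - l)) := by
        rw [hcc]; gcongr

lemma nonempty_S {γ α : ℝ} (hγ : 1 < γ) (hα : 0 < α) (hα1 : α < 1 / γ) : (S γ α).Nonempty := by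
  have hγα : γ * α ≤ 1 := by
    rw [lt_div_iff₀ (by linarith)] at hα1
    linarith
  refine ⟨α + 1, by linarith, ?_⟩
  rintro z ⟨hz, hz1⟩
  rw [add_sub_cancel_left, Real.rpow_one]
  -- `z^α ≥ 1 - α (1 - z)/z`
  have h1 : 1 - z ^ α ≤ α * (1 - z) / z := by
    have h2 : 1 + α * Real.log z ≤ z ^ α := by
      rw [Real.rpow_def_of_pos hz]
      have := Real.add_one_le_exp (Real.log z * α)
      linarith
    have h3 : 1 - 1 / z ≤ Real.log z := by
      have := Real.one_sub_inv_le_log_of_pos hz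
      rwa [one_div]
    have h4 : α * (1 - 1 / z) ≤ α * Real.log z := by gcongr
    have h5 : α * (1 - z) / z = - (α * (1 - 1 / z)) := by field_simp; ring
    linarith
  have hp : 0 ≤ 1 - z := by linarith
  calc γ * z * (1 - z ^ α) ≤ γ * z * (α * (1 - z) / z) := by
        apply mul_le_mul_of_nonneg_left h1 (by positivity)
    _ = (γ * α) * (1 - z) := by field_simp
    _ ≤ 1 * (1 - z) := by gcongr
    _ = 1 - z := one_mul _

/-- **Answer to MP_16faa7_an, Q1 (yes).** -/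
theorem _root_.Pool.Agent.Results.MP_16faa7_an.ThresholdConvex.result :
    ∀ γ : ℝ, 1 < γ → (∀ α ∈ Ioo 0 (1 / γ), (S γ α).Nonempty) ∧
      ConvexOn ℝ (Ioo 0 (1 / γ)) (beta γ) := by
  intro γ hγ
  refine ⟨fun α hα => nonempty_S hγ hα.1 hα.2, convex_Ioo _ _, ?_⟩
  intro α₁ h1 α₂ h2 a b ha hb hab
  have hγ0 : 0 < γ := by linarith
  simp only [smul_eq_mul]
  have hbdd : ∀ α, BddBelow (S γ α) := fun α => ⟨0, fun β hβ => hβ.1.le⟩
  have hn1 := nonempty_S hγ h1.1 h1.2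
  have hn2 := nonempty_S hγ h2.1 h2.2
  refine le_of_forall_pos_le_add fun ε hε => ?_
  obtain ⟨β₁, hβ₁, hlt1⟩ := exists_lt_of_csInf_lt hn1 (lt_add_of_pos_right (sInf (S γ α₁)) hε)
  obtain ⟨β₂, hβ₂, hlt2⟩ := exists_lt_of_csInf_lt hn2 (lt_add_of_pos_right (sInf (S γ α₂)) hε)
  have h := csInf_le (hbdd _) (convex_mem hγ0 h1.1 h2.1 ha hb hab hβ₁ hβ₂)
  unfold beta
  refine h.trans ?_
  have k1 : a * β₁ ≤ a * (sInf (S γ α₁) + ε) := by gcongr
  have k2 : b * β₂ ≤ b * (sInf (S γ α₂) + ε) := by gcongr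
  nlinarith

end Pool.Agent.Results.MP_16faa7_an.ThresholdConvex
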